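import Pool.Agent.Helper89.TQ.Ctx

set_option autoImplicit false
set_option linter.all false
set_option maxHeartbeats 4000000

namespace Pool.Agent.Helper79.TQ
open Pool.Agent.Helper89.TQ

lemma not3 {a b c : Prop} (h : ¬ (a ∧ b ∧ c)) : ¬ a ∨ ¬ b ∨ ¬ c := by tauto

lemma not4 {a b c d : Prop} (h : ¬ (a ∧ b ∧ c ∧ d)) : ¬ a ∨ ¬ b ∨ ¬ c ∨ ¬ d := by tauto

theorem c0_11_23_33_k1 {n1 n2 n3 A1 A2 A3 B1 B2 B3 m11_1 m11_2 m11_3 m13_1 m13_2 m13_3 m22_1 m22_2 m22_3 m23_1 m23_2 m23_3 m33_1 m33_2 m33_3 : ℤ}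
    (C : Ctx0 n1 n2 n3 A1 A2 A3 B1 B2 B3 m11_1 m11_2 m11_3 m13_1 m13_2 m13_3 m22_1 m22_2 m22_3 m23_1 m23_2 m23_3 m33_1 m33_2 m33_3)
    (e0 : 0 < B1)
    (e1 : 0 < A2)
    (e2 : 0 < B3)
    (e3 : 0 < A3)
    (s1 : 1 * A1 + 2 * B1 ≤ m11_1 + m23_1 + m33_1)
    (s2 : 1 * A2 + 2 * B2 ≤ m11_2 + m23_2 + m33_2)
    (s3 : 1 * A3 + 2 * B3 ≤ m11_3 + m23_3 + m33_3) : False := by
  have h_a0 := C.a0
  have h_a1 := C.a1
  have h_a2 := C.a2
  have h_a3 := C.a3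
  have h_a4 := C.a4
  have h_a5 := C.a5
  have h_b0 := C.b0
  have h_b1 := C.b1
  have h_b2 := C.b2
  have h_b3 := C.b3
  have h_b4 := C.b4
  have h_b5 := C.b5
  have h_o0 := C.o0
  have h_o1 := C.o1
  have h_o2 := C.o2
  have h_f11_0 := C.f11_0
  have h_f11_1 := C.f11_1
  have h_f11_2 := C.f11_2
  have h_f23_0 := C.f23_0
  have h_f23_1 := C.f23_1
  have h_f23_2 := C.f23_2
  have h_f23_4 := C.f23_4
  have h_f23_5 := C.f23_5
  have h_f23_6 := C.f23_6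
  have h_f23_8 := C.f23_8
  have h_f23_9 := C.f23_9
  have h_f33_0 := C.f33_0
  have h_f33_1 := C.f33_1
  have h_f33_3 := C.f33_3
  have h_f33_4 := C.f33_4
  have h_f33_6 := C.f33_6
  have h_f33_7 := C.f33_7
  rcases not4 C.tzmp with q1 | q1 | q1 | q1 <;> try omega
  all_goals (rcases not3 (C.p11_23B e0 e1 e2) with q2 | q2 | q2 <;> try omega)
  all_goals (rcases C.f33_8 with q3 | q3 <;> try omega)
  all_goals (rcases C.f33_5 with q4 | q4 <;> try omega)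
  all_goals (rcases C.f33_2 with q5 | q5 <;> try omega)
  all_goals (rcases C.f23_10 with q6 | q6 <;> try omega)
  all_goals (rcases C.f23_7 with q7 | q7 | q7 <;> try omega)
  all_goals (rcases C.f23_3 with q8 | q8 | q8 <;> try omega)
  all_goals (rcases C.t12 with ⟨q9, q9'⟩ | ⟨q9, q9'⟩ <;> try omega)
  all_goals (rcases C.t23 with ⟨q10, q10'⟩ | ⟨q10, q10'⟩ <;> try omega)
  all_goals (rcases not3 (C.p11_33B e0 e3) with r1 | r1 | r1 <;> try omega)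
  all_goals (rcases not3 (C.p23_33B e1 e2 e3) with r2 | r2 | r2 <;> try omega)
  all_goals (rcases not3 (C.p11_33A e0 e3) with r3 | r3 | r3 <;> try omega)
  all_goals (rcases not3 (C.p23_33A e1 e2 e3) with r4 | r4 | r4 <;> try omega)
  all_goals (rcases not3 (C.p11_23A e0 e1 e2) with r5 | r5 | r5 <;> try omega)

end Pool.Agent.Helper79.TQ
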